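import Pool.Agent.MagRad.Final

/-!
# Sets of ordinals in Magidor-Radin extensions

Let `⟨U α β : α ≤ κ, β < o α⟩` be a coherent sequence of normal measures, with any value of `o κ`
(in particular `κ⁺`), and `MR o U κ` the Magidor-Radin forcing.  Let `A` be a name for a subset of
a set `ι` of the ground model, given by the regular sets `A i` of the conditions forcing `i` into
it.  Then every condition `p` has an extension `q` with a name `C` for a subset of the generic
sequence `C_G` such that, below `q`, the complete subalgebras generated by `A` and by `C` are
equal.  Since `V[A_G]` is the extension of `V` by the intersection of `G` with the complete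
subalgebra generated by the `A i`, this says that `V[A_G] = V[C']` for the value `C' ⊆ C_G` of `C`
under every generic filter `G` that contains `q`; by genericity there is such a `q` in every
generic filter.
-/

namespace Pool.Agent.Results.MP_78d8b6_lc.EverySetIsASubsequence

universe u v

open MagRad

theorem result (κ : Ordinal.{u}) (o : Ordinal.{u} → Ordinal.{u})
    (U : Ordinal.{u} → Ordinal.{u} → Ultrafilter Ordinal.{u}) (hU : IsCoherent κ o U)
    {ι : Type v} (A : ι → Set (MR o U κ)) (hA : ∀ i, IsRegular (A i)) (p : MR o U κ) :
    ∃ q ≤ p, ∃ C : Set.Iio κ → Set (MR o U κ),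
      (∀ ν, IsRegular (C ν)) ∧ (∀ ν, C ν ⊆ occurs κ ν) ∧
        traceBelow q (Set.range A) = traceBelow q (Set.range C) :=
  main hU A hA p

end Pool.Agent.Results.MP_78d8b6_lc.EverySetIsASubsequence
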